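import Pool.Agent.Run7.h61.TW.AppC

/-!
# The Artin twists of all elliptic curves over a number field, on average: past the edge and past the centre

The theorem is due to helper61 (library `Run7/h61/TW`, with the engine of helper876 and helper9); it is stated here for
the conjecture of Hasse and Weil over number fields: for an elliptic curve `E` over `K` and a finite Galois extension
`F / K` one has `L(E/F, s) = ∏ L(E, ρ, s)^(dim ρ)`, and the conjecture for all fields between `K` and `F` is about the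
factors `L(E, ρ, s)`.

`K` is any number field, `F / K` any finite Galois extension and `ρ_i`, `i ∈ I`, finitely many irreducible complex
representations of its group, pairwise neither isomorphic nor dual to each other (for instance one from every pair
`{ρ, ρ*}` of irreducible representations; `F = K` and the trivial representation is the case of `L(E/K, s)` itself).
For an elliptic curve `E : y² = x³ + a x + b` over `𝓞 K` let `L_i(E, s)` be `L(E, ρ_i, s)` if `ρ_i` is self-dual, and
`L(E, ρ_i, s) L(E, ρ_i*, s)` if not; the Euler factors are at the places prime to `2` at which `x³ + a x + b` is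
separable.

No continuation of a single L-function is known or assumed. For all exponents `k_i ≥ 0` the mean value of
`∏ L_i(E, s)^(k_i)` over the `E` with coefficients in a box converges for `Re s > 3/2` to
`F(s) = L(∧² τ, 2 s - 1) G(s)`, `τ = ⊕ k_i ρ_i` (`k_i (ρ_i ⊕ ρ_i*)`), with `G` holomorphic for `Re s > 5/6` and positive
at the real points, and the same is true for the partial Euler products for `Re s > 5/6`. At the centre `s = 1` of the
functional equation the orders are those of random matrix theory: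

`log F(x) / log(1 / (x - 1)) → ∑ e_i` for `x → 1+`, and `log (mean of the products over Nv ≤ Z at s = 1) / log log Z → ∑ e_i`,

where `e_i = k_i (k_i - 1) / 2` if `ρ_i` is orthogonal (orthogonal symmetry type), `e_i = k_i (k_i + 1) / 2` if `ρ_i`
is symplectic (symplectic symmetry type), and `e_i = k_i²` if `ρ_i` is not self-dual (unitary symmetry type). In
particular the twists by different `ρ_i` are independent: the orders of the mixed moments are the sums of the
orders of the moments. The proof contains the theorem of Frobenius and Schur: the indicator `ind ρ`, the mean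
value of `χ(g²)`, is `1`, `-1` or `0`.
-/

set_option autoImplicit false

open NumberField IsDedekindDomain Filter Topology CategoryTheory

namespace Pool.Agent.Results.MP_bf61d2_nt.ArtinFactorsOnAverage

open Run7.h61.TW
open Run7.h876.EN (mean)

/-- **The mixed moments of the Artin twists of all elliptic curves.** -/
theorem result {K : Type} [Field K] [NumberField K] (F : IntermediateField K (AlgebraicClosure K))
    [FiniteDimensional K F] [IsGalois K F] {I : Type} [Fintype I] (ρ : I → FDRep ℂ Gal(F/K)) [∀ i, Simple (ρ i)]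
    (hρ : ∀ i j, i ≠ j → IsEmpty (ρ i ≅ ρ j) ∧ IsEmpty (ρ i ≅ du (ρ j)))
    {ι : Type} [Fintype ι] [DecidableEq ι] (ω : Module.Basis ι ℤ (𝓞 K)) :
    (∀ i, (IsEmpty (ρ i ≅ du (ρ i)) → ind (ρ i) = 0) ∧ (Nonempty (ρ i ≅ du (ρ i)) → ind (ρ i) = 1 ∨ ind (ρ i) = -1)) ∧
    (∀ i, ∃ a, IsTrace F (ρ i).character a) ∧
    ∀ a : I → HeightOneSpectrum (𝓞 K) → ℕ → ℂ, (∀ i, IsTrace F (ρ i).character (a i)) → ∀ k : I → ℕ,
    ∃ G : ℂ → ℂ, DifferentiableOn ℂ G {s | 5 / 6 < s.re} ∧ (∀ x : ℝ, 5 / 6 < x → ∃ r : ℝ, 0 < r ∧ G x = r) ∧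
      (∀ σ : ℝ, 3 / 2 < σ → ∀ ε : ℝ, 0 < ε → ∃ M : ℕ, ∀ H : Fin 2 ⊕ Empty → ℕ, (∀ j, M ≤ H j) → ∀ s : ℂ, σ ≤ s.re →
        ‖mean ω H (ellFam K).smooth (fun t => ∏ i, twLSeries ((ellFam K).member t) (selfTrace F (ρ i) (a i)) s ^ k i) -
          eulerL (fun v => ext2 fun m => ∑ i, (k i : ℂ) * selfTrace F (ρ i) (a i) v m) (2 * s - 1) * G s‖ ≤ ε) ∧
      (∀ θ : ℝ, 0 < θ → ∀ σ : ℝ, 5 / 6 < σ → ∀ ε : ℝ, 0 < ε → ∃ Z₀ : ℕ, ∀ Z : ℕ, Z₀ ≤ Z → ∀ H : Fin 2 ⊕ Empty → ℕ,
        (∀ j, Real.exp ((Z : ℝ) ^ (1 + θ)) ≤ H j) → ∀ s : ℂ, σ ≤ s.re →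
        ‖mean ω H (ellFam K).smooth (fun t => ∏ i, twPartial Z ((ellFam K).member t) (selfTrace F (ρ i) (a i)) s ^ k i) *
          (eulerZ Z (fun v => ext2 fun m => ∑ i, (k i : ℂ) * selfTrace F (ρ i) (a i) v m) (2 * s - 1))⁻¹ - G s‖ ≤ ε) ∧
      Tendsto (fun x : ℝ => Real.log ‖eulerL (fun v => ext2 fun m => ∑ i, (k i : ℂ) * selfTrace F (ρ i) (a i) v m) (2 * x - 1) * G x‖ /
        Real.log (1 / (x - 1))) (𝓝[>] 1) (𝓝 (∑ i, rmt F (ρ i) (k i))) ∧
      (∀ θ : ℝ, 0 < θ → ∀ ε : ℝ, 0 < ε → ∃ Z₀ : ℕ, ∀ Z : ℕ, Z₀ ≤ Z → ∀ H : Fin 2 ⊕ Empty → ℕ,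
        (∀ j, Real.exp ((Z : ℝ) ^ (1 + θ)) ≤ H j) →
        |Real.log ‖mean ω H (ellFam K).smooth (fun t => ∏ i, twPartial Z ((ellFam K).member t) (selfTrace F (ρ i) (a i)) 1 ^ k i)‖ /
          Real.log (Real.log Z) - ∑ i, rmt F (ρ i) (k i)| ≤ ε) :=
  ⟨fun i => fs_simple (ρ i), fun i => exists_trace F _ fun _ _ => FDRep.char_conj _ _ _,
    fun a ha k => appC F ρ hρ a ha k ω⟩

end Pool.Agent.Results.MP_bf61d2_nt.ArtinFactorsOnAverage
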