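import Pool.Agent.Run7.h328.SEP.EngEC
import Pool.Agent.Run7.h328.SEP.ECOne
import Pool.Agent.Run7.h328.SEP.One

/-!
# Short Euler products for almost all curves `y² = x³ + a x + (b + t)` over a number field

`K` is an arbitrary number field of degree `d`, and `a`, `b` are arbitrary integers of `K`.  Consider the curves

`E_t : y² = x³ + a x + (b + t)`, `t` a rational integer, `|t| ≤ H`.

The Euler product of `L(E_t/K, s)` converges absolutely for `Re s > 3/2`, and nothing is known or assumed about it to the left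
of this half-plane; the analytic conductors are not bounded in terms of `H`.  For all but at most `(2 H + 1) H ^ (-1/200)` of
the `t` we show, for all `s` with `3/2 < Re s ≤ 5/2`, `|Im s| ≤ H ^ (1/200)` at the same time:

* `log L(E_t/K, s)` is the sum of the logarithms of the Euler factors of the primes of norm at most `(log H) ^ 5`, up to
  `O(1 / (σ log H) + 1 / √(log H))`, where `σ = Re s - 3/2` is the distance from the edge.
* If `σ ≥ 1 / log H`, then `|log L(E_t/K, s)| ≤ 2 log log log H + O(1)`, so `|L(E_t/K, s)|` is between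
  `c (log log H) ^ (-2)` and `C (log log H) ^ 2`.  This is the bound which follows for an individual curve from the analytic
  continuation, the functional equation and the Riemann hypothesis of its L-function.

The constant and `H₀` in the first statement depend on the degree `d` of `K` only: they are free of the field `K` and
of `a` and `b`.

Proof.  The residues of `t` modulo the square-free numbers up to a power of `H` are uniformly distributed.  The trace of Frobenius
of `E_t` at a prime of `K` of degree one, as a function of `t` modulo the prime number below, has mean value zero.  Hence the `2 j`-th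
moments of the sums of the traces over the primes in `(y, y²]`, for `y ≥ (log H) ^ 5` and `j` about `log H / log y`, are so
small that outside `H ^ (1 - 1/80)` of the `t` the sum is at most `y ^ (-1/8)`.  We sum over `y`, take the union over a grid of
points `s`, and use the bound of Hasse at all primes.
-/

set_option autoImplicit false

open NumberField IsDedekindDomain Filter

namespace Pool.Agent.Results.MP_bf61d2_nt.ShortEulerProducts

section
variable {K : Type} [Field K] [NumberField K]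

/-- `M v` is, for every `v`, an integral model of `E` with discriminant minimal at `v`. -/
def MinimalModels (E : WeierstrassCurve K) (M : HeightOneSpectrum (𝓞 K) → WeierstrassCurve (𝓞 K)) : Prop :=
  ∀ v : HeightOneSpectrum (𝓞 K),
    (∃ C : WeierstrassCurve.VariableChange K, C • E = (M v).map (algebraMap (𝓞 K) K)) ∧
    ∀ W : WeierstrassCurve (𝓞 K),
      (∃ C : WeierstrassCurve.VariableChange K, C • E = W.map (algebraMap (𝓞 K) K)) →
        ∀ n : ℕ, (M v).Δ ∈ v.asIdeal ^ n → W.Δ ∈ v.asIdeal ^ n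

open Classical in
/-- The polynomial `1 - a_v T + q_v T²`, or `1 - a_v T` at a prime of bad reduction, at `T = q_v^{-s}`; here
`a_v` is `q_v` minus the number of the affine points of the reduction of the model `M v`. -/
noncomputable def factor (M : HeightOneSpectrum (𝓞 K) → WeierstrassCurve (𝓞 K)) (s : ℂ)
    (v : HeightOneSpectrum (𝓞 K)) : ℂ :=
  1 - ((((Ideal.absNorm v.asIdeal : ℕ) : ℤ) -
          ((Nat.card {p : (𝓞 K ⧸ v.asIdeal) × (𝓞 K ⧸ v.asIdeal) //
            p.2 ^ 2 + Ideal.Quotient.mk v.asIdeal (M v).a₁ * p.1 * p.2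
              + Ideal.Quotient.mk v.asIdeal (M v).a₃ * p.2
            = p.1 ^ 3 + Ideal.Quotient.mk v.asIdeal (M v).a₂ * p.1 ^ 2
              + Ideal.Quotient.mk v.asIdeal (M v).a₄ * p.1
              + Ideal.Quotient.mk v.asIdeal (M v).a₆} : ℕ) : ℤ) : ℤ) : ℂ)
          * ((Ideal.absNorm v.asIdeal : ℕ) : ℂ) ^ (-s)
      + (if (M v).Δ ∈ v.asIdeal then (0 : ℂ) else 1)
          * ((Ideal.absNorm v.asIdeal : ℕ) : ℂ) ^ (1 - 2 * s)

/-- `L(E/K, s)`. -/
noncomputable def LSeries (M : HeightOneSpectrum (𝓞 K) → WeierstrassCurve (𝓞 K)) (s : ℂ) : ℂ :=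
  ∏' v : HeightOneSpectrum (𝓞 K), (factor M s v)⁻¹

/-- The logarithm of `L(E/K, s)` given by the Euler product. -/
noncomputable def logL (M : HeightOneSpectrum (𝓞 K) → WeierstrassCurve (𝓞 K)) (s : ℂ) : ℂ :=
  ∑' v : HeightOneSpectrum (𝓞 K), -Complex.log (factor M s v)

/-- The part of the primes of norm at most `y` in the logarithm of `L(E/K, s)`. -/
noncomputable def shortLog (M : HeightOneSpectrum (𝓞 K) → WeierstrassCurve (𝓞 K)) (y : ℕ) (s : ℂ) : ℂ :=
  ∑' v : HeightOneSpectrum (𝓞 K), if Ideal.absNorm v.asIdeal ≤ y then -Complex.log (factor M s v) else 0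

/-- The curve `y² = x³ + a x + (b + t)`. -/
noncomputable def curve (a b : 𝓞 K) (t : ℤ) : WeierstrassCurve K where
  a₁ := 0
  a₂ := 0
  a₃ := 0
  a₄ := (a : K)
  a₆ := ((b + (t : 𝓞 K) : 𝓞 K) : K)

end

/-- The length `⌈(log H) ^ 5⌉` of the short Euler products. -/
noncomputable def cut (H : ℕ) : ℕ := ⌈Real.log H ^ 5⌉₊

open Run7.h328.SEP in
lemma logL_eq {K : Type} [Field K] [NumberField K] (M : HeightOneSpectrum (𝓞 K) → WeierstrassCurve (𝓞 K)) (s : ℂ) :
    logL M s = ∑' v : HeightOneSpectrum (𝓞 K), Pool.Agent.N534.EC.ll M (s - 3 / 2) v := by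
  have e : (3 / 2 + (s - 3 / 2) : ℂ) = s := by ring
  unfold Pool.Agent.N534.EC.ll
  rw [e]
  rfl

open Run7.h328.SEP in
lemma shortLog_eq {K : Type} [Field K] [NumberField K] (M : HeightOneSpectrum (𝓞 K) → WeierstrassCurve (𝓞 K))
    (y : ℕ) (s : ℂ) : shortLog M y s = shortV M y (s - 3 / 2) := by
  have e : (3 / 2 + (s - 3 / 2) : ℂ) = s := by ring
  unfold shortV Pool.Agent.N534.EC.ll
  rw [e]
  rfl

lemma exp_logL {K : Type} [Field K] [NumberField K] (M : HeightOneSpectrum (𝓞 K) → WeierstrassCurve (𝓞 K)) (s : ℂ)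
    (hs : 3 / 2 < s.re) : LSeries M s = Complex.exp (logL M s) := by
  have h1 := Pool.Agent.N534.EC.exp_ll M (u := s - 3 / 2) (by
    have : (s - 3 / 2 : ℂ).re = s.re - 3 / 2 := by simp
    rw [this]
    linarith)
  have e : (3 / 2 + (s - 3 / 2) : ℂ) = s := by ring
  rw [e, ← logL_eq] at h1
  exact h1

lemma loglog_cut : ∀ᶠ H : ℕ in atTop, 3 ≤ cut H ∧ 0 < Real.log (Real.log H) ∧
    Real.log (Real.log (cut H)) ≤ Real.log (Real.log (Real.log H)) + Real.log 6 := by
  have h0 := Run7.h328.SEP.ev_log 4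
  have h1 : ∀ᶠ H : ℕ in atTop, Real.exp 1 ≤ Real.log H := Run7.h328.SEP.ev_log _
  filter_upwards [h0, h1] with H h4 h1
  have hl5 : 1024 ≤ Real.log H ^ 5 := by
    have := pow_le_pow_left₀ (by norm_num) h4 5
    linarith
  have hl0 : 0 < Real.log H := by linarith
  have hcl : Real.log H ^ 5 ≤ ((cut H : ℕ) : ℝ) := Nat.le_ceil _
  have hcu : ((cut H : ℕ) : ℝ) ≤ 2 * Real.log H ^ 5 := by
    have h1 : ((cut H : ℕ) : ℝ) < Real.log H ^ 5 + 1 := Nat.ceil_lt_add_one (by positivity)
    linarith
  have hc3 : (3 : ℝ) ≤ ((cut H : ℕ) : ℝ) := by linarith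
  have hll1 : 1 ≤ Real.log (Real.log H) := by
    rw [Real.le_log_iff_exp_le hl0]
    exact h1
  refine ⟨by exact_mod_cast hc3, by linarith, ?_⟩
  have e1 : Real.log ((cut H : ℕ) : ℝ) ≤ 6 * Real.log (Real.log H) := by
    have h2 : Real.log ((cut H : ℕ) : ℝ) ≤ Real.log (2 * Real.log H ^ 5) := Real.log_le_log (by linarith) hcu
    rw [Real.log_mul (by norm_num) (by positivity), Real.log_pow] at h2
    have h3 := Real.log_two_lt_d9
    push_cast at h2
    linarith
  have e2 : 0 < Real.log ((cut H : ℕ) : ℝ) := Real.log_pos (by linarith)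
  have e3 := Real.log_le_log e2 e1
  rw [Real.log_mul (by norm_num) (by linarith)] at e3
  linarith

lemma bounds {z : ℂ} {L : ℂ} (hL : L = Complex.exp z) {x C D : ℝ} (hx : 0 < x) (h : ‖z‖ ≤ D * Real.log x + C) :
    Real.exp (-C) * x ^ (-D) ≤ ‖L‖ ∧ ‖L‖ ≤ Real.exp C * x ^ D := by
  rw [hL, Complex.norm_exp]
  obtain ⟨h1, h2⟩ := abs_le.mp ((Complex.abs_re_le_norm z).trans h)
  constructor
  · rw [Real.rpow_def_of_pos hx, ← Real.exp_add]
    apply Real.exp_le_exp.mpr
    linarith
  · rw [Real.rpow_def_of_pos hx, ← Real.exp_add]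
    apply Real.exp_le_exp.mpr
    linarith

/-- **Short Euler products for the curves `y² = x³ + a x + (b + t)` over number fields.** -/
theorem result (d : ℕ) :
    (∀ (K : Type) [Field K] [NumberField K] (M : HeightOneSpectrum (𝓞 K) → WeierstrassCurve (𝓞 K)) (s : ℂ),
      3 / 2 < s.re → LSeries M s = Complex.exp (logL M s)) ∧
    ∃ C : ℝ, 0 < C ∧ ∃ H₀ : ℕ, ∀ (K : Type) [Field K] [NumberField K], Module.finrank ℚ K = d →
      ∃ C' : ℝ, 0 < C' ∧ ∀ H : ℕ, H₀ ≤ H → ∀ a b : 𝓞 K,
        ∃ X ⊆ Finset.Icc (-(H : ℤ)) H, (X.card : ℝ) ≤ (H : ℝ) ^ (-(1 / 200) : ℝ) * (2 * H + 1) ∧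
          ∀ t ∈ Finset.Icc (-(H : ℤ)) H \ X, ∀ M : HeightOneSpectrum (𝓞 K) → WeierstrassCurve (𝓞 K),
            MinimalModels (curve a b t) M → ∀ s : ℂ, s.re ≤ 5 / 2 → |s.im| ≤ (H : ℝ) ^ (1 / 200 : ℝ) →
              (3 / 2 < s.re → ‖logL M s - shortLog M (cut H) s‖ ≤
                C * (1 / ((s.re - 3 / 2) * Real.log H) + 1 / Real.sqrt (Real.log H))) ∧
              (3 / 2 + 1 / Real.log H ≤ s.re →
                ‖logL M s‖ ≤ d * (2 * Real.log (Real.log (Real.log H)) + C) ∧
                ‖logL M s‖ ≤ 2 * Real.log (Real.log (Real.log H)) + C' ∧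
                Real.exp (-C') * Real.log (Real.log H) ^ (-2 : ℝ) ≤ ‖LSeries M s‖ ∧
                ‖LSeries M s‖ ≤ Real.exp C' * Real.log (Real.log H) ^ (2 : ℝ)) := by
  refine ⟨fun K _ _ M s hs => exp_logL M s hs, ?_⟩
  rcases Nat.eq_zero_or_pos d with hd0 | hd0
  · refine ⟨1, one_pos, 0, fun K _ _ hK => ?_⟩
    rw [hd0] at hK
    have := Module.finrank_pos (R := ℚ) (M := K)
    omega
  have hd1 : (1 : ℝ) ≤ d := by exact_mod_cast hd0
  obtain ⟨C1, hC1, he⟩ := Run7.h328.SEP.engine_ec 1 d 2 (by norm_num) 5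
  obtain ⟨C2, hC2, hu⟩ := Run7.h328.SEP.short_unif
  obtain ⟨H₀, hH₀⟩ := eventually_atTop.mp (he.and (loglog_cut.and
    ((Run7.h328.SEP.ev_log 1).and (eventually_ge_atTop 3))))
  have hl6 : 0 < Real.log 6 := Real.log_pos (by norm_num)
  refine ⟨C1 + (2 * C1 + 2 * Real.log 6 + C2), by positivity, H₀, fun K _ _ hK => ?_⟩
  obtain ⟨C3, hC3, hs⟩ := Run7.h328.SEP.short_K K
  refine ⟨2 * C1 + 2 * Real.log 6 + C3, by positivity, fun H hH a b => ?_⟩
  obtain ⟨he, ⟨hc3, hll, hcut⟩, hl1, hH3⟩ := hH₀ H hH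
  have hl0 : 0 < Real.log H := by linarith
  obtain ⟨Ex, hE1, hE2, hE3⟩ := he K hK Unit (by simp) _ _ (Run7.h328.SEP.trFam_one a b)
  obtain ⟨X, hX1, hX2, hX3⟩ := Run7.h328.SEP.box_one H Ex hE1 _ hE2
  refine ⟨X, hX1, hX2, ?_⟩
  · intro t ht M hM s hs52 hsim
    have hc := hX3 t ht
    have hloc := Run7.h328.SEP.loc_one a b t M hM
    have er : (s - 3 / 2 : ℂ).re = s.re - 3 / 2 := by simp
    have ei : (s - 3 / 2 : ℂ).im = s.im := by simp
    have key : 3 / 2 < s.re → ‖logL M s - shortLog M (cut H) s‖ ≤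
        C1 * (1 / ((s.re - 3 / 2) * Real.log H) + 1 / Real.sqrt (Real.log H)) := by
      intro hs32
      have h1 := hE3 _ hc M hloc (s - 3 / 2) (by rw [er]; linarith) (by rw [er]; linarith) (by rw [ei]; exact hsim)
      rw [er] at h1
      rw [logL_eq, shortLog_eq]
      exact h1
    refine ⟨fun hs32 => ?_, fun hs1 => ?_⟩
    · refine (key hs32).trans ?_
      apply mul_le_mul_of_nonneg_right
      · linarith
      · have : 0 < s.re - 3 / 2 := by linarith
        positivity
    · have hinv : 0 < 1 / Real.log H := by positivity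
      have hs32 : 3 / 2 < s.re := by linarith
      have h1 := key hs32
      have h2 : 1 / ((s.re - 3 / 2) * Real.log H) ≤ 1 := by
        rw [div_le_one (mul_pos (by linarith) hl0)]
        have h3 : 1 / Real.log H ≤ s.re - 3 / 2 := by linarith
        rw [div_le_iff₀ hl0] at h3
        exact h3
      have h3 : 1 / Real.sqrt (Real.log H) ≤ 1 := by
        rw [div_le_one (Real.sqrt_pos.mpr hl0), Real.one_le_sqrt]
        exact hl1
      have h4 : ‖logL M s - shortLog M (cut H) s‖ ≤ 2 * C1 := by nlinarith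
      have h5 := norm_add_le (logL M s - shortLog M (cut H) s) (shortLog M (cut H) s)
      rw [sub_add_cancel] at h5
      have hu0 : 0 ≤ (s - 3 / 2 : ℂ).re := by rw [er]; linarith
      have h6 := hs M (cut H) hc3 (s - 3 / 2) hu0
      have h7 := hu K M (cut H) hc3 (s - 3 / 2) hu0
      rw [← shortLog_eq] at h6 h7
      have hdK : Pool.Agent.N534.EC.dK K = (d : ℝ) := by
        unfold Pool.Agent.N534.EC.dK
        rw [hK]
      rw [hdK] at h7
      have h8 : ‖logL M s‖ ≤ 2 * Real.log (Real.log (Real.log H)) + (2 * C1 + 2 * Real.log 6 + C3) := by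
        linarith
      have h9 : ‖logL M s‖ ≤ d * (2 * Real.log (Real.log (Real.log H)) +
          (C1 + (2 * C1 + 2 * Real.log 6 + C2))) := by
        have h10 : (d : ℝ) * (2 * Real.log (Real.log (cut H)) + C2) ≤
            d * (2 * (Real.log (Real.log (Real.log H)) + Real.log 6) + C2) := by gcongr
        have h11 : (2 * C1) * 1 ≤ (2 * C1) * d := by gcongr
        have h12 : 0 ≤ C1 * d := by positivity
        have e : (d : ℝ) * (2 * Real.log (Real.log (Real.log H)) + (C1 + (2 * C1 + 2 * Real.log 6 + C2))) =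
            C1 * d + (2 * C1) * d + d * (2 * (Real.log (Real.log (Real.log H)) + Real.log 6) + C2) := by ring
        rw [e]
        linarith
      exact ⟨h9, h8, bounds (exp_logL M s hs32) hll h8⟩

end Pool.Agent.Results.MP_bf61d2_nt.ShortEulerProducts
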