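import Pool.Agent.Run7.h401.SD.Main

/-!
# The boundary values of L-series of elliptic curves on the edge have a smooth density

Let `E` be an elliptic curve over a number field `K` and let `Λ(t)` be the boundary value of `log L(E, s)` at the point
`3/2 + it` of the edge of absolute convergence; it exists for almost all real `t`.  The numbers `Λ(t)` have a limit
distribution (`DistributionOnTheEdge`).  We prove that this distribution is smooth:

there is a nonnegative function `f` on the complex plane, infinitely differentiable and rapidly decreasing together with all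
its derivatives, such that for every set `B` whose boundary has measure zero the proportion of the `t` in `[T, T + H]` with
`Λ(t) ∈ B` tends to the integral of `f` over `B`, as `H → ∞`, uniformly in `T`.  The same is true on the lines
`Re s = 3/2 + σ`.  So the values of `log L(E, 3/2 + it)` do not accumulate at points or on curves: the proportion of `t` with
`|Λ(t) - z| < r` is asymptotically at most `C r²`, with `C` independent of `z` and `r`.

No continuation of `L(E, s)` is known or assumed, and nothing is assumed about the numbers `a_v`.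

Proof.  The limit law is the law of the random Euler product, a sum of independent terms, one for every rational prime `p`;
the term of `p` is `- log P_p(z)` with `z` uniformly distributed on the unit circle, where the polynomial `P_p` has degree at
most `2 [K : ℚ]`.  If `E` has good reduction at a place above `p`, the derivative of `Re (u log P_p(exp (2πix)))` is, for
`|u| = 1`, up to a bounded factor the modulus of a polynomial whose leading coefficient has modulus independent of `u`; so it
is small only on a small set, and the characteristic function of the term is `O(|ξ|^(-β))` with `β > 0` that depends only on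
the degree of `K`.  There are infinitely many such `p`, so the characteristic function of the limit law decreases rapidly;
by interpolation the same is true for its derivatives, and Fourier inversion gives the density.
-/

set_option autoImplicit false

namespace Pool.Agent.Results.MP_bf61d2_nt.SmoothDensityOnTheEdge

open NumberField IsDedekindDomain Filter Topology MeasureTheory
open scoped ENNReal ContDiff

/-- `W v` is, for every finite place `v`, an integral model of `E` with discriminant minimal at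
`v`. -/
def MinimalModels {K : Type} [Field K] [NumberField K] (E : WeierstrassCurve K)
    (W : HeightOneSpectrum (𝓞 K) → WeierstrassCurve (𝓞 K)) : Prop :=
  ∀ v : HeightOneSpectrum (𝓞 K),
    (∃ C : WeierstrassCurve.VariableChange K, C • (W v).map (algebraMap (𝓞 K) K) = E) ∧
    ∀ W' : WeierstrassCurve (𝓞 K),
      (∃ C : WeierstrassCurve.VariableChange K, C • W'.map (algebraMap (𝓞 K) K) = E) →
      ∀ n : ℕ, (W v).Δ ∈ v.asIdeal ^ n → W'.Δ ∈ v.asIdeal ^ n

/-- The number `a_v`: `Nv` minus the number of affine points of the reduction of `W v`. -/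
noncomputable def trace {K : Type} [Field K] [NumberField K]
    (W : HeightOneSpectrum (𝓞 K) → WeierstrassCurve (𝓞 K)) (v : HeightOneSpectrum (𝓞 K)) : ℂ :=
  (Ideal.absNorm v.asIdeal : ℂ)
    - (Nat.card {xy : (𝓞 K ⧸ v.asIdeal) × (𝓞 K ⧸ v.asIdeal) //
        ((W v).map (Ideal.Quotient.mk v.asIdeal)).toAffine.Equation xy.1 xy.2} : ℂ)

open Classical in
/-- The Euler factor at `v`, `(1 - a_v Nv^{-s} + Nv^{1-2s})⁻¹` if the reduction at `v` is good and
`(1 - a_v Nv^{-s})⁻¹` if it is bad. -/
noncomputable def localFactor {K : Type} [Field K] [NumberField K]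
    (W : HeightOneSpectrum (𝓞 K) → WeierstrassCurve (𝓞 K)) (v : HeightOneSpectrum (𝓞 K))
    (s : ℂ) : ℂ :=
  (1 - trace W v * (Ideal.absNorm v.asIdeal : ℂ) ^ (-s)
    + (if (W v).Δ ∈ v.asIdeal then 0 else (Ideal.absNorm v.asIdeal : ℂ))
        * (Ideal.absNorm v.asIdeal : ℂ) ^ (-2 * s))⁻¹

/-- The `L`-series, as the Euler product over all finite places. -/
noncomputable def LSeries {K : Type} [Field K] [NumberField K]
    (W : HeightOneSpectrum (𝓞 K) → WeierstrassCurve (𝓞 K)) (s : ℂ) : ℂ :=
  ∏' v : HeightOneSpectrum (𝓞 K), localFactor W v s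

/-- The sum of the logarithms of the Euler factors at `s` over the finite places of norm less than `x`. -/
noncomputable def partialLog {K : Type} [Field K] [NumberField K]
    (W : HeightOneSpectrum (𝓞 K) → WeierstrassCurve (𝓞 K)) (s : ℂ) (x : ℕ) : ℂ :=
  ∑ᶠ v ∈ {v : HeightOneSpectrum (𝓞 K) | Ideal.absNorm v.asIdeal < x}, Complex.log (localFactor W v s)

/-- The value of `log L(E, s)` at `s`: the limit of the sums `partialLog W s x` as `x → ∞`. -/
noncomputable def logValue {K : Type} [Field K] [NumberField K]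
    (W : HeightOneSpectrum (𝓞 K) → WeierstrassCurve (𝓞 K)) (s : ℂ) : ℂ :=
  limUnder atTop (partialLog W s)

/-- The point `3/2 + iτ` of the edge of absolute convergence. -/
noncomputable def edgePoint (τ : ℝ) : ℂ := ((3 / 2 : ℝ) : ℂ) + (τ : ℂ) * Complex.I

/-- infinitely many primes lie below places of good reduction -/
theorem good_inf {K : Type} [Field K] [NumberField K] (E : WeierstrassCurve K) [E.IsElliptic]
    (W : HeightOneSpectrum (𝓞 K) → WeierstrassCurve (𝓞 K)) (hW : MinimalModels E W) :
    (Run7.h401.SD.Good1 W).Infinite := by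
  classical
  obtain ⟨v₀, -⟩ := Run7.h401.SD.exists_above (K := K) Nat.prime_two
  -- the discriminant of one model
  have hΔ : (W v₀).Δ ≠ 0 := by
    intro h0
    obtain ⟨C, hC⟩ := (hW v₀).1
    have h1 : E.Δ = 0 := by
      rw [← hC, WeierstrassCurve.variableChange_Δ, WeierstrassCurve.map_Δ, h0, map_zero, mul_zero]
    have h2 : IsUnit E.Δ := WeierstrassCurve.IsElliptic.isUnit
    rw [h1] at h2
    exact not_isUnit_zero h2
  have hspan : Ideal.span {(W v₀).Δ} ≠ 0 := by
    rw [Ne, Ideal.zero_eq_bot, Ideal.span_singleton_eq_bot]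
    exact hΔ
  have hfin : {v : HeightOneSpectrum (𝓞 K) | (W v).Δ ∈ v.asIdeal}.Finite := by
    refine (Ideal.finite_factors hspan).subset fun v hv => ?_
    have h1 := (hW v).2 (W v₀) (hW v₀).1 1
    rw [pow_one] at h1
    show v.asIdeal ∣ Ideal.span {(W v₀).Δ}
    rw [Ideal.dvd_span_singleton]
    exact h1 hv
  have hfin2 : ((fun v : HeightOneSpectrum (𝓞 K) => (Pool.Agent.H921R2.TatePole.below v : ℕ)) ''
      {v : HeightOneSpectrum (𝓞 K) | (W v).Δ ∈ v.asIdeal}).Finite := hfin.image _
  refine (Nat.infinite_setOfPred_prime.sdiff hfin2).mono fun p hp => ?_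
  obtain ⟨hp1, hp2⟩ := hp
  obtain ⟨v, hv⟩ := Run7.h401.SD.exists_above (K := K) hp1
  refine ⟨hp1, v, hv, ?_⟩
  unfold Pool.Agent.H341R2.EC.dlt
  rw [if_neg]
  intro h
  exact hp2 ⟨v, h, hv⟩

/-- **The smooth density.**  The first part says what the numbers `logValue W s` are. -/
theorem result (K : Type) [Field K] [NumberField K] (E : WeierstrassCurve K) [E.IsElliptic]
    (W : HeightOneSpectrum (𝓞 K) → WeierstrassCurve (𝓞 K)) (hW : MinimalModels E W) :
    ((∀ s : ℂ, 3 / 2 < s.re → Tendsto (partialLog W s) atTop (𝓝 (logValue W s)) ∧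
        Complex.exp (logValue W s) = LSeries W s) ∧
      ∀ᵐ t : ℝ, Tendsto (partialLog W (edgePoint t)) atTop (𝓝 (logValue W (edgePoint t)))) ∧
    ∀ σ : ℝ, 0 ≤ σ → ∃ f : ℂ → ℝ, ContDiff ℝ ∞ f ∧
      (∀ k n : ℕ, ∃ C : ℝ, ∀ z, ‖z‖ ^ k * ‖iteratedFDeriv ℝ n f z‖ ≤ C) ∧
      (∀ z, 0 ≤ f z) ∧ Integrable f ∧ ∫ z, f z = 1 ∧
      ∀ B : Set ℂ, volume (frontier B) = 0 → ∀ ε : ℝ, 0 < ε → ∃ H₀ : ℝ, 0 < H₀ ∧ ∀ H : ℝ, H₀ ≤ H → ∀ T : ℝ,
        |(volume {t ∈ Set.Icc T (T + H) | logValue W (σ + edgePoint t) ∈ B}).toReal / H - ∫ z in B, f z| ≤ ε := by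
  have htr : ∀ (K : Type) [Field K] [NumberField K] (W : HeightOneSpectrum (𝓞 K) → WeierstrassCurve (𝓞 K))
      (v : HeightOneSpectrum (𝓞 K)), trace W v = (Pool.Agent.H341R2.EC.trc W v : ℂ) := by
    intro K _ _ W v
    have h1 : (Nat.card {xy : (𝓞 K ⧸ v.asIdeal) × (𝓞 K ⧸ v.asIdeal) //
            ((W v).map (Ideal.Quotient.mk v.asIdeal)).toAffine.Equation xy.1 xy.2}) =
        Pool.Agent.H341R2.EC.aff (Pool.Agent.H341R2.EC.red v (W v)) := by
      unfold Pool.Agent.H341R2.EC.aff Pool.Agent.H341R2.EC.red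
      refine Nat.card_congr (Equiv.subtypeEquivRight fun q => ?_)
      exact WeierstrassCurve.Affine.equation_iff ..
    unfold trace Pool.Agent.H341R2.EC.trc
    rw [h1]
    push_cast
    rfl
  have hlf : ∀ (K : Type) [Field K] [NumberField K] (W : HeightOneSpectrum (𝓞 K) → WeierstrassCurve (𝓞 K))
      (v : HeightOneSpectrum (𝓞 K)) (s : ℂ), localFactor W v s = (Pool.Agent.R433.MD.lf W s v)⁻¹ := by
    intro K _ _ W v s
    have hne : ((Pool.Agent.H921R2.TatePole.nm v : ℕ) : ℂ) ≠ 0 := by
      exact_mod_cast (Pool.Agent.R433.MD.nm_pos v).ne'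
    unfold localFactor Pool.Agent.R433.MD.lf
    rw [htr]
    congr 1
    congr 1
    unfold Pool.Agent.H341R2.EC.dlt
    rw [show (1 - 2 * s : ℂ) = 1 + (-2 * s) by ring, Complex.cpow_add _ _ hne, Complex.cpow_one]
    split_ifs
    · ring
    · rw [one_mul]
      rfl
  have hlog : ∀ (K : Type) [Field K] [NumberField K] (W : HeightOneSpectrum (𝓞 K) → WeierstrassCurve (𝓞 K))
      (v : HeightOneSpectrum (𝓞 K)) (u : ℂ), 0 ≤ u.re →
      Complex.log (localFactor W v (3 / 2 + u)) = Pool.Agent.N534.EC.ll W u v := by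
    intro K _ _ W v u hu
    rw [hlf]
    unfold Pool.Agent.N534.EC.ll
    rw [Complex.log_inv]
    have h2 := Run7.h113.LE.lf_ball W v u hu
    have h3 := Complex.abs_re_le_norm (Pool.Agent.R433.MD.lf W (3 / 2 + u) v - 1)
    rw [Complex.sub_re, Complex.one_re, abs_le] at h3
    intro harg
    rw [Complex.arg_eq_pi_iff] at harg
    linarith [h3.1, harg.1]
  have hsum : ∀ (K : Type) [Field K] [NumberField K] (W : HeightOneSpectrum (𝓞 K) → WeierstrassCurve (𝓞 K)) (u : ℂ),
      0 ≤ u.re → ∀ x : ℕ, partialLog W (3 / 2 + u) x = Run7.h113.LE.Sx W x u := by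
    intro K _ _ W u hu x
    unfold partialLog Run7.h113.LE.Sx
    have hf : {v : HeightOneSpectrum (𝓞 K) | Ideal.absNorm v.asIdeal < x}.Finite :=
      Pool.Agent.W350.EdgeNF.hfin x
    rw [finsum_mem_eq_finite_toFinset_sum _ hf]
    exact Finset.sum_congr rfl fun v _ => hlog K W v u hu
  have hedge : ∀ (σ t : ℝ), (σ : ℂ) + edgePoint t = 3 / 2 + ((σ:ℂ) + t * Complex.I) := by
    intro σ t
    unfold edgePoint
    push_cast
    ring
  have hedge0 : ∀ t : ℝ, edgePoint t = 3 / 2 + (((0:ℝ):ℂ) + t * Complex.I) := by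
    intro t
    rw [← hedge, Complex.ofReal_zero, zero_add]
  -- the limits
  have hlim : ∀ (K : Type) [Field K] [NumberField K] (W : HeightOneSpectrum (𝓞 K) → WeierstrassCurve (𝓞 K)) (u l : ℂ),
      0 ≤ u.re → Tendsto (fun x => Run7.h113.LE.Sx W x u) atTop (𝓝 l) →
        Tendsto (partialLog W (3 / 2 + u)) atTop (𝓝 l) ∧ logValue W (3 / 2 + u) = l := by
    intro K _ _ W u l hu h
    have h1 : Tendsto (partialLog W (3 / 2 + u)) atTop (𝓝 l) := h.congr fun x => (hsum K W u hu x).symm
    exact ⟨h1, h1.limUnder_eq⟩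
  have hLL : ∀ (K : Type) [Field K] [NumberField K] (W : HeightOneSpectrum (𝓞 K) → WeierstrassCurve (𝓞 K)) (u : ℂ),
      0 < u.re → Tendsto (partialLog W (3 / 2 + u)) atTop (𝓝 (Run7.h113.LE.LL W u)) ∧
        logValue W (3 / 2 + u) = Run7.h113.LE.LL W u := by
    intro K _ _ W u hu
    refine hlim K W u _ hu.le ?_
    have h1 := Run7.h113.LE.LL_lim W hu u.im
    rw [Complex.re_add_im] at h1
    exact h1
  have hisl : ∀ (K : Type) [Field K] [NumberField K] (W : HeightOneSpectrum (𝓞 K) → WeierstrassCurve (𝓞 K)) (σ : ℝ),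
      0 ≤ σ → Run7.h113.LE.IsLim W σ (fun t => logValue W (σ + edgePoint t)) := by
    intro K _ _ W σ hσ
    unfold Run7.h113.LE.IsLim
    rcases hσ.eq_or_lt with h | h
    · subst h
      filter_upwards [Run7.h113.LE.Ex_ae W] with t ht
      have h1 := Run7.h113.LE.Lam_tendsto W ht
      rw [hedge, (hlim K W _ _ (by simp) h1).2]
      exact h1
    · refine Eventually.of_forall fun t => ?_
      have h1 := Run7.h113.LE.LL_lim W h t
      beta_reduce
      rw [hedge, (hlim K W _ _ (by simp [h.le]) h1).2]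
      exact h1
  -- the primes with good reduction
  have hgood : (Run7.h401.SD.Good1 W).Infinite := good_inf E W hW
  refine ⟨⟨?_, ?_⟩, fun σ hσ => ?_⟩
  · intro s hs
    obtain ⟨u, rfl⟩ : ∃ u : ℂ, s = 3 / 2 + u := ⟨s - 3 / 2, by ring⟩
    have hu : 0 < u.re := by
      have e : ((3:ℂ) / 2 + u).re = 3 / 2 + u.re := by simp
      rw [e] at hs
      linarith
    obtain ⟨h1, h2⟩ := hLL K W u hu
    rw [h2]
    refine ⟨h1, ?_⟩
    unfold Run7.h113.LE.LL LSeries
    have h3 : ∀ v, Pool.Agent.N534.EC.ll W u v = Complex.log (localFactor W v (3 / 2 + u)) := fun v =>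
      (hlog K W v u hu.le).symm
    simp_rw [h3]
    refine Complex.cexp_tsum_eq_tprod (fun v => ?_) ?_
    · rw [hlf]
      exact inv_ne_zero (Pool.Agent.R433.MD.lf_ne_zero W hs v)
    · exact (Run7.h113.LE.ll_summable W hu).congr h3
  · filter_upwards [Run7.h113.LE.Ex_ae W] with t ht
    obtain ⟨h1, h2⟩ := hlim K W _ _ (by simp) (Run7.h113.LE.Lam_tendsto W ht)
    rw [← hedge0] at h1 h2
    rw [h2]
    exact h1
  · exact Run7.h401.SD.smooth_law le_rfl W hgood hσ (hisl K W σ hσ)

end Pool.Agent.Results.MP_bf61d2_nt.SmoothDensityOnTheEdge
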