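import Pool.Agent.Run7.h522.QA.Ell

/-!
# The twists of an elliptic curve over a number field by all Dirichlet characters of modulus `q`

Let `E` be an elliptic curve over a number field `K` and `χ` a Dirichlet character modulo `q`.  The
twisted L-series is

`L(E ⊗ χ, s) = ∏_v (1 - a_v χ(q_v) q_v^{-s} + δ_v χ(q_v)² q_v^{1-2s})⁻¹ = ∑ χ(N𝔫) a_𝔫 (N𝔫)^{-s}`,

`δ_v = 1` or `0` according as the reduction at `v` is good or bad.  It converges absolutely for
`Re s > 3/2`; no continuation is known in general, and none is used or assumed here, nor any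
automorphy.  We study the values near the edge `Re s = 3/2` for all the `φ(q)` characters modulo `q`.

* The first part: `log L(E ⊗ χ, 3/2 + y + it)` is, in mean square over `χ`, given by its Euler factors
  with `q_v < q`.  The sum (not the mean) over the `φ(q)` characters of the squares of the differences
  is at most `(C [K : ℚ] (1 + log (1 + 1/(y log q))))²` with an absolute constant `C`, uniformly in `t`:
  at the distance `1/log q` from the edge the difference is less than `η` for all but at most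
  `(C' [K : ℚ] / η)²` of the characters modulo `q`, a number that does not depend on `q`, `t` and `E`.
* The second part: the joint law.  For a finite family of elliptic curves `E_m` over number fields `K_m`
  and real numbers `λ_m` the vector of the `log L(E_m ⊗ χ, 3/2 + y + i(t + λ_m))`, `χ` modulo `q`, has a
  limit law, the law of the logarithms of the random Euler products at `3/2 + iλ_m`, as `q` tends to
  infinity without small prime factors (for example through the primes).  The convergence holds with the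
  second moments, uniformly in `t` and in `y` for `exp (- o(√φ(q))) ≤ y = o(1)`.
-/

set_option autoImplicit false

namespace Pool.Agent.Results.MP_bf61d2_nt.TwistLaw

open NumberField IsDedekindDomain Filter Topology MeasureTheory

/-- `W v` is, for every finite place `v`, an integral model of `E` with discriminant minimal at
`v`. -/
def MinimalModels {K : Type} [Field K] [NumberField K] (E : WeierstrassCurve K)
    (W : HeightOneSpectrum (𝓞 K) → WeierstrassCurve (𝓞 K)) : Prop :=
  ∀ v : HeightOneSpectrum (𝓞 K),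
    (∃ C : WeierstrassCurve.VariableChange K, C • (W v).map (algebraMap (𝓞 K) K) = E) ∧
    ∀ W' : WeierstrassCurve (𝓞 K),
      (∃ C : WeierstrassCurve.VariableChange K, C • W'.map (algebraMap (𝓞 K) K) = E) →
      ∀ n : ℕ, (W v).Δ ∈ v.asIdeal ^ n → W'.Δ ∈ v.asIdeal ^ n

/-- The number `a_v`: `q_v` minus the number of affine points of the reduction of `W v`. -/
noncomputable def trace {K : Type} [Field K] [NumberField K]
    (W : HeightOneSpectrum (𝓞 K) → WeierstrassCurve (𝓞 K)) (v : HeightOneSpectrum (𝓞 K)) : ℂ :=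
  (Ideal.absNorm v.asIdeal : ℂ)
    - (Nat.card {xy : (𝓞 K ⧸ v.asIdeal) × (𝓞 K ⧸ v.asIdeal) //
        ((W v).map (Ideal.Quotient.mk v.asIdeal)).toAffine.Equation xy.1 xy.2} : ℂ)

open Classical in
/-- The Euler polynomial at `v`: `1 - a_v w + q_v w²` if the reduction at `v` is good and `1 - a_v w` if
it is bad. -/
noncomputable def eulerPoly {K : Type} [Field K] [NumberField K]
    (W : HeightOneSpectrum (𝓞 K) → WeierstrassCurve (𝓞 K)) (v : HeightOneSpectrum (𝓞 K))
    (w : ℂ) : ℂ :=
  1 - trace W v * w + (if (W v).Δ ∈ v.asIdeal then 0 else (Ideal.absNorm v.asIdeal : ℂ)) * w ^ 2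

/-- `L(E ⊗ χ, s)`, the Euler product over all finite places. -/
noncomputable def LSeries {K : Type} [Field K] [NumberField K]
    (W : HeightOneSpectrum (𝓞 K) → WeierstrassCurve (𝓞 K)) {q : ℕ} (χ : DirichletCharacter ℂ q)
    (s : ℂ) : ℂ :=
  ∏' v : HeightOneSpectrum (𝓞 K), (eulerPoly W v
    (χ ((Ideal.absNorm v.asIdeal : ℕ) : ZMod q) * (Ideal.absNorm v.asIdeal : ℂ) ^ (-s)))⁻¹

/-- `log L(E ⊗ χ, s)`: the sum of the logarithms of the Euler factors. -/
noncomputable def logL {K : Type} [Field K] [NumberField K]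
    (W : HeightOneSpectrum (𝓞 K) → WeierstrassCurve (𝓞 K)) {q : ℕ} (χ : DirichletCharacter ℂ q)
    (s : ℂ) : ℂ :=
  ∑' v : HeightOneSpectrum (𝓞 K), -Complex.log (eulerPoly W v
    (χ ((Ideal.absNorm v.asIdeal : ℕ) : ZMod q) * (Ideal.absNorm v.asIdeal : ℂ) ^ (-s)))

/-- The sum of the logarithms of the Euler factors at the places with `q_v < x`. -/
noncomputable def shortLog {K : Type} [Field K] [NumberField K]
    (W : HeightOneSpectrum (𝓞 K) → WeierstrassCurve (𝓞 K)) {q : ℕ} (χ : DirichletCharacter ℂ q)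
    (s : ℂ) (x : ℕ) : ℂ :=
  ∑ᶠ v ∈ {v : HeightOneSpectrum (𝓞 K) | Ideal.absNorm v.asIdeal < x}, -Complex.log (eulerPoly W v
    (χ ((Ideal.absNorm v.asIdeal : ℕ) : ZMod q) * (Ideal.absNorm v.asIdeal : ℂ) ^ (-s)))

/-- The sequences of independent points `z_2, z_3, z_5, …` of the circle, one for every prime number,
with the uniform distribution. -/
noncomputable abbrev circles : Measure (ℕ → UnitAddCircle) :=
  Measure.infinitePi fun _ : ℕ => AddCircle.haarAddCircle (T := 1)

/-- The random completely multiplicative function `f` of Steinhaus: the values `f(p) = e^{-2πi z_p}` at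
the prime numbers are independent and uniformly distributed on the unit circle.  (The point of the
`k`-th prime number is the `k`-th coordinate, `k = 0, 1, 2, …`.) -/
noncomputable def steinhaus (z : ℕ → UnitAddCircle) (n : ℕ) : ℂ :=
  n.factorization.prod fun p k => (fourier (-1) (z (Nat.count Nat.Prime p)) : ℂ) ^ k

/-- The logarithm of the random Euler product at the point `3/2 + iλ`, over the places with
`q_v < Y`. -/
noncomputable def randomLog {K : Type} [Field K] [NumberField K]
    (W : HeightOneSpectrum (𝓞 K) → WeierstrassCurve (𝓞 K)) (lam : ℝ) (Y : ℕ)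
    (z : ℕ → UnitAddCircle) : ℂ :=
  ∑ᶠ v ∈ {v : HeightOneSpectrum (𝓞 K) | Ideal.absNorm v.asIdeal < Y}, -Complex.log (eulerPoly W v
    (steinhaus z (Ideal.absNorm v.asIdeal) *
      (Ideal.absNorm v.asIdeal : ℂ) ^ (-((3 / 2 : ℝ) + lam * Complex.I))))

/-- **The twists by all characters modulo `q`.** -/
theorem result :
    (∃ C : ℝ, ∀ (K : Type) [Field K] [NumberField K] (E : WeierstrassCurve K) [E.IsElliptic]
      (W : HeightOneSpectrum (𝓞 K) → WeierstrassCurve (𝓞 K)) (_ : MinimalModels E W),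
      ∃ (q₀ : ℕ) (B : ℝ), ∀ (q : ℕ) [NeZero q], 2 ≤ q → ∀ t y : ℝ, 0 < y →
        (∀ χ : DirichletCharacter ℂ q,
          Complex.exp (logL W χ (3 / 2 + y + t * Complex.I)) =
            LSeries W χ (3 / 2 + y + t * Complex.I)) ∧
        (q₀ ≤ q → ∑ χ : DirichletCharacter ℂ q, ‖logL W χ (3 / 2 + y + t * Complex.I) -
            shortLog W χ (3 / 2 + y + t * Complex.I) q‖ ^ 2 ≤
          (C * Module.finrank ℚ K * (1 + Real.log (1 + 1 / (y * Real.log q)))) ^ 2) ∧
        ∑ χ : DirichletCharacter ℂ q, ‖logL W χ (3 / 2 + y + t * Complex.I)‖ ^ 2 ≤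
          B * (q.totient + (1 + Real.log (1 + 1 / (y * Real.log q))) ^ 2)) ∧
    ∀ (M : Type) [Fintype M] (K : M → Type) [∀ m, Field (K m)] [∀ m, NumberField (K m)]
      (E : ∀ m, WeierstrassCurve (K m)) [∀ m, (E m).IsElliptic]
      (W : ∀ m, HeightOneSpectrum (𝓞 (K m)) → WeierstrassCurve (𝓞 (K m)))
      (_ : ∀ m, MinimalModels (E m) (W m)) (lam : M → ℝ),
      ∃ X : (ℕ → UnitAddCircle) → M → ℂ,
        (∀ m, MemLp (fun z => X z m) 2 circles ∧
          Tendsto (fun Y => ∫ z, ‖X z m - randomLog (W m) (lam m) Y z‖ ^ 2 ∂circles) atTop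
            (𝓝 0)) ∧
        ∀ (φ : (M → ℂ) → ℂ) (A : ℝ), Continuous φ → (∀ x, ‖φ x‖ ≤ A * (1 + ‖x‖ ^ 2)) →
          Integrable (fun z => φ (X z)) circles ∧
          ∀ ε : ℝ, 0 < ε → ∃ n : ℕ, ∀ (q : ℕ) [NeZero q] (t y : ℝ), n ≤ q →
            (∀ p : ℕ, p.Prime → p ∣ q → n ≤ p) → 0 < y → n * y ≤ 1 →
            n * Real.log (1 / y) ≤ Real.sqrt q.totient →
            ‖(∑ χ : DirichletCharacter ℂ q,
                φ fun m => logL (W m) χ (3 / 2 + y + (t + lam m) * Complex.I)) / q.totient -
              ∫ z, φ (X z) ∂circles‖ ≤ ε := by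
  classical
  have htr : ∀ (K : Type) [Field K] [NumberField K]
      (W : HeightOneSpectrum (𝓞 K) → WeierstrassCurve (𝓞 K)) (v : HeightOneSpectrum (𝓞 K)),
      trace W v = (Pool.Agent.H341R2.EC.trc W v : ℂ) := by
    intro K _ _ W v
    have h1 : (Nat.card {xy : (𝓞 K ⧸ v.asIdeal) × (𝓞 K ⧸ v.asIdeal) //
            ((W v).map (Ideal.Quotient.mk v.asIdeal)).toAffine.Equation xy.1 xy.2}) =
        Pool.Agent.H341R2.EC.aff (Pool.Agent.H341R2.EC.red v (W v)) := by
      unfold Pool.Agent.H341R2.EC.aff Pool.Agent.H341R2.EC.red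
      refine Nat.card_congr (Equiv.subtypeEquivRight fun q => ?_)
      exact WeierstrassCurve.Affine.equation_iff ..
    unfold trace Pool.Agent.H341R2.EC.trc
    rw [h1]
    push_cast
    rfl
  have hpv : ∀ (K : Type) [Field K] [NumberField K]
      (W : HeightOneSpectrum (𝓞 K) → WeierstrassCurve (𝓞 K)) (v : HeightOneSpectrum (𝓞 K))
      (w : ℂ), eulerPoly W v w = Run7.h522.QA.pv W v w := by
    intro K _ _ W v w
    unfold eulerPoly Run7.h522.QA.pv
    rw [htr]
    congr 1
    congr 1
    unfold Pool.Agent.H341R2.EC.dlt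
    split_ifs
    · rw [zero_mul]
    · rw [one_mul]
      rfl
  have hlg : ∀ (K : Type) [Field K] [NumberField K]
      (W : HeightOneSpectrum (𝓞 K) → WeierstrassCurve (𝓞 K)) (q : ℕ)
      (χ : DirichletCharacter ℂ q) (s : ℂ), logL W χ s = Run7.h522.QA.lg W χ s := by
    intro K _ _ W q χ s
    unfold logL Run7.h522.QA.lg Run7.h522.QA.lp
    refine tsum_congr fun v => ?_
    rw [hpv]
    rfl
  have hfs : ∀ (K : Type) [Field K] [NumberField K] (x : ℕ)
      (f : HeightOneSpectrum (𝓞 K) → ℂ),
      ∑ᶠ v ∈ {v : HeightOneSpectrum (𝓞 K) | Ideal.absNorm v.asIdeal < x}, f v =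
        ∑ v ∈ Pool.Agent.W350.EdgeV.FV Pool.Agent.H921R2.TatePole.nm
          Pool.Agent.W350.EdgeNF.hfin x, f v := by
    intro K _ _ x f
    have h1 : {v : HeightOneSpectrum (𝓞 K) | Ideal.absNorm v.asIdeal < x} =
        ((Pool.Agent.W350.EdgeV.FV Pool.Agent.H921R2.TatePole.nm
          Pool.Agent.W350.EdgeNF.hfin x : Finset (HeightOneSpectrum (𝓞 K))) :
            Set (HeightOneSpectrum (𝓞 K))) := by
      ext v
      simp only [Set.mem_ofPred_eq, Finset.mem_coe, Pool.Agent.W350.EdgeV.mem_FV]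
      rfl
    rw [h1, finsum_mem_coe_finset]
  have hmin : ∀ (K : Type) [Field K] [NumberField K] (E : WeierstrassCurve K)
      (W : HeightOneSpectrum (𝓞 K) → WeierstrassCurve (𝓞 K)), MinimalModels E W →
      ∀ v, Pool.Agent.H341R2.EC.IsMinAt E v (W v) := by
    intro K _ _ E W hW v
    obtain ⟨⟨C, hC⟩, h2⟩ := hW v
    refine ⟨⟨C⁻¹, by rw [← hC, inv_smul_smul]⟩, fun W' hW' n hn => ?_⟩
    obtain ⟨C', hC'⟩ := hW'
    exact h2 W' ⟨C'⁻¹, by rw [← hC', inv_smul_smul]⟩ n hn
  have hse : ∀ t y : ℝ, (3 / 2 + y + t * Complex.I : ℂ) = Run7.h522.BM.se 1 t + y := by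
    intro t y
    unfold Run7.h522.BM.se
    push_cast
    ring
  refine ⟨⟨1280, ?_⟩, ?_⟩
  · intro K _ _ E hE W hW
    have hS := Run7.h522.QA.S0_finite W hE (hmin K E W hW)
    obtain ⟨q₀, hq₀⟩ := Run7.h522.QA.far_ell W hS
    obtain ⟨B, hB⟩ := Run7.h522.QA.second_ell W hS
    refine ⟨q₀, B, fun q _ hq t y hy => ⟨fun χ => ?_, fun hqq => ?_, ?_⟩⟩
    · rw [hlg, hse, Run7.h522.QA.exp_lg W hS χ (by
        rw [Run7.h522.QA.se_one_re]
        linarith)]
      unfold LSeries
      refine tprod_congr fun v => ?_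
      rw [hpv]
      rfl
    · have h1 := hq₀ q hqq hq t y hy
      have h2 : ∀ χ : DirichletCharacter ℂ q,
          shortLog W χ (Run7.h522.BM.se 1 t + y) q =
          ∑ v ∈ Pool.Agent.W350.EdgeV.FV Pool.Agent.H921R2.TatePole.nm
            Pool.Agent.W350.EdgeNF.hfin q,
            Run7.h522.QA.lp W v (Run7.h522.QA.wx χ v (Run7.h522.BM.se 1 t + y)) := by
        intro χ
        unfold shortLog
        rw [hfs]
        refine Finset.sum_congr rfl fun v _ => ?_
        rw [hpv]
        rfl
      rw [hse]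
      simp_rw [hlg, h2]
      exact h1
    · rw [hse]
      simp_rw [hlg]
      exact hB q hq t y hy
  · intro M _ K _ _ E hE W hW lam
    have hS := fun m => Run7.h522.QA.S0_finite (W m) (hE m) (hmin (K m) (E m) (W m) (hW m))
    obtain ⟨X, hX1, hX2, hX3⟩ := Run7.h522.QA.law_ell W hS lam
    have hrs : ∀ (m : M) (Y : ℕ) (z : ℕ → UnitAddCircle), randomLog (W m) (lam m) Y z =
        ∑ v ∈ Pool.Agent.W350.EdgeV.FV Pool.Agent.H921R2.TatePole.nm
            Pool.Agent.W350.EdgeNF.hfin Y,
          Run7.h522.QA.lp (W m) v (Run7.h522.QA.wz (lam m) v z) := by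
      intro m Y z
      unfold randomLog
      rw [hfs]
      refine Finset.sum_congr rfl fun v _ => ?_
      rw [hpv]
      rfl
    refine ⟨X, fun m => ?_, fun φ A hφ hA => ?_⟩
    · have hX1m : MemLp (fun z => X z m) 2 circles := by
        refine MemLp.of_le hX1 ?_ (ae_of_all _ fun z => norm_le_pi_norm (X z) m)
        exact (continuous_apply m).comp_aestronglyMeasurable hX1.1
      refine ⟨hX1m, ?_⟩
      refine squeeze_zero (fun Y => integral_nonneg fun z => by positivity) (fun Y => ?_) hX2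
      have hcm : Continuous fun z : ℕ → UnitAddCircle =>
          ∑ v ∈ Pool.Agent.W350.EdgeV.FV Pool.Agent.H921R2.TatePole.nm
            Pool.Agent.W350.EdgeNF.hfin Y,
          Run7.h522.QA.lp (W m) v (Run7.h522.QA.wz (lam m) v z) :=
        continuous_finsetSum _ fun v _ => Run7.h522.QA.continuous_lpz (W m) (lam m) v
      have hc : Continuous fun z : ℕ → UnitAddCircle => (fun m =>
          ∑ v ∈ Pool.Agent.W350.EdgeV.FV Pool.Agent.H921R2.TatePole.nm
            Pool.Agent.W350.EdgeNF.hfin Y,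
          Run7.h522.QA.lp (W m) v (Run7.h522.QA.wz (lam m) v z) : M → ℂ) :=
        continuous_pi fun m =>
          continuous_finsetSum _ fun v _ => Run7.h522.QA.continuous_lpz (W m) (lam m) v
      have hi1 : Integrable (fun z => ‖X z m - randomLog (W m) (lam m) Y z‖ ^ 2) circles := by
        simp_rw [hrs]
        have h3 := (hX1m.sub (Run7.h522.QA.memLp_two' hcm)).integrable_norm_pow two_ne_zero
        simpa using h3
      have hi2 := (hX1.sub (Run7.h522.QA.memLp_two' hc)).integrable_norm_pow two_ne_zero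
      refine integral_mono hi1 (by simpa using hi2) fun z => ?_
      simp only
      rw [hrs]
      exact pow_le_pow_left₀ (norm_nonneg _)
        (norm_le_pi_norm (X z - fun m => ∑ v ∈ Pool.Agent.W350.EdgeV.FV
          Pool.Agent.H921R2.TatePole.nm Pool.Agent.W350.EdgeNF.hfin Y,
          Run7.h522.QA.lp (W m) v (Run7.h522.QA.wz (lam m) v z)) m) 2
    · obtain ⟨h1, h2⟩ := hX3 φ A hφ hA
      refine ⟨h1, fun ε hε => ?_⟩
      obtain ⟨n, hn⟩ := h2 ε hε
      refine ⟨n, fun q _ t y h3 h4 h5 h6 h7 => ?_⟩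
      have h8 := hn q t y ⟨h3, h4⟩ h5 h6 h7
      unfold Run7.h522.QA.avc at h8
      have h9 : ((Fintype.card (DirichletCharacter ℂ q) : ℕ) : ℂ) = (q.totient : ℂ) := by
        have := Run7.h522.QA.card_char (q := q)
        exact_mod_cast this
      rw [h9] at h8
      have h10 : ∀ (χ : DirichletCharacter ℂ q) (m : M),
          logL (W m) χ (3 / 2 + y + (t + lam m) * Complex.I) =
          Run7.h522.QA.lg (W m) χ (Run7.h522.BM.se 1 t + y + lam m * Complex.I) := by
        intro χ m
        rw [hlg, ← hse]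
        congr 1
        ring
      simp_rw [h10]
      exact h8

end Pool.Agent.Results.MP_bf61d2_nt.TwistLaw
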